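import Mathlib

set_option autoImplicit false
open Set Function Topology Filter TopologicalSpace

namespace Pool.Agent.H.MP_5b75f6

section gen
variable {K L ι : Type} [TopologicalSpace K] [TopologicalSpace L] (Φ : ι → Filter L)

abbrev G : Type := {g : C(L, ℝ) // ∀ i, Tendsto g (Φ i) (𝓝 0)}

def q (z : L) : G Φ → ℝ := fun g => g.1 z

lemma qc : Continuous (q Φ) := continuous_pi fun g => g.1.continuous

lemma qt (i : ι) : Tendsto (q Φ) (Φ i) (𝓝 0) := tendsto_pi_nhds.2 fun g => g.2 i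

abbrev XX (r : C(L, K)) : Type := {x : K × (G Φ → ℝ) // x.2 = 0 ∨ ∃ z, x = (r z, q Φ z)}

def i0 (r : C(L, K)) : C(K, XX Φ r) :=
  ⟨fun k => ⟨(k, 0), Or.inl rfl⟩, (Continuous.prodMk_left _).subtype_mk _⟩
def i1 (r : C(L, K)) : C(L, XX Φ r) :=
  ⟨fun z => ⟨(r z, q Φ z), Or.inr ⟨z, rfl⟩⟩, (r.continuous.prodMk (qc Φ)).subtype_mk _⟩

lemma cX (r : C(L, K)) (p : XX Φ r) : (∃ z, p = i0 Φ r z) ∨ ∃ z, p = i1 Φ r z := by
  obtain ⟨⟨z, w⟩, h | ⟨y, h⟩⟩ := p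
  · obtain rfl : w = _ := h
    exact Or.inl ⟨z, rfl⟩
  · exact Or.inr ⟨y, Subtype.ext h⟩

variable {Φ} {r s : C(L, K)}

lemma it {i : ι} {p : K} (h : Tendsto r (Φ i) (𝓝 p)) :
    Tendsto (i1 Φ r) (Φ i) (𝓝 (i0 Φ r p)) := tendsto_subtype_rng.2 (h.prodMk_nhds (qt Φ i))

def gg (hr : ∀ i, ∃ p, Tendsto r (Φ i) (𝓝 p)) (f : C(XX Φ r, ℝ)) : G Φ :=
  ⟨f.comp (i1 Φ r) - f.comp ((i0 Φ r).comp r), fun i => by
    obtain ⟨p, h⟩ := hr i
    have := ((f.continuous.tendsto _).comp (it h)).sub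
      (((f.comp (i0 Φ r)).continuous.tendsto _).comp h)
    rwa [ContinuousMap.comp_apply, sub_self] at this⟩

def T (hr : ∀ i, ∃ p, Tendsto r (Φ i) (𝓝 p)) (s : C(L, K)) (f : C(XX Φ r, ℝ)) : C(XX Φ s, ℝ) :=
  ⟨fun y => f (i0 Φ r y.1.1) + y.1.2 (gg hr f), by fun_prop⟩

lemma T0 (hr : ∀ i, ∃ p, Tendsto r (Φ i) (𝓝 p)) (f : C(XX Φ r, ℝ)) (k : K) :
    T hr s f (i0 Φ s k) = f (i0 Φ r k) := add_zero _

lemma T1 (hr : ∀ i, ∃ p, Tendsto r (Φ i) (𝓝 p)) (f : C(XX Φ r, ℝ)) (z : L) :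
    T hr s f (i1 Φ s z) = f (i0 Φ r (s z)) + (f (i1 Φ r z) - f (i0 Φ r (r z))) := rfl

lemma TT (hr : ∀ i, ∃ p, Tendsto r (Φ i) (𝓝 p)) (hs : ∀ i, ∃ p, Tendsto s (Φ i) (𝓝 p))
    (f : C(XX Φ r, ℝ)) : T hs r (T hr s f) = f := by
  ext p
  rcases cX Φ r p with ⟨z, rfl⟩ | ⟨z, rfl⟩
  · rw [T0, T0]
  · rw [T1, T1, T0, T0]
    ring

lemma Tc (hr : ∀ i, ∃ p, Tendsto r (Φ i) (𝓝 p)) (s : C(L, K)) : @Continuous _ (XX Φ s → ℝ)
    (induced (fun g : C(XX Φ r, ℝ) => (g : XX Φ r → ℝ)) inferInstance) inferInstance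
    fun g => T hr s g := by
  let := induced (fun g : C(XX Φ r, ℝ) => (g : XX Φ r → ℝ)) inferInstance
  have e : ∀ x, Continuous fun g : C(XX Φ r, ℝ) => g x := fun x =>
    (continuous_apply x).comp continuous_induced_dom
  refine continuous_pi fun p => ?_
  rcases cX Φ s p with ⟨z, rfl⟩ | ⟨z, rfl⟩
  · simpa only [T0] using e _
  · exact (e _).add ((e _).sub (e _))

def E (hr : ∀ i, ∃ p, Tendsto r (Φ i) (𝓝 p)) (hs : ∀ i, ∃ p, Tendsto s (Φ i) (𝓝 p)) :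
    C(XX Φ r, ℝ) ≃ C(XX Φ s, ℝ) := ⟨T hr s, T hs r, TT hr hs, TT hs hr⟩
end gen

abbrev L : Type := Σ _ : ℝ, ℚ
abbrev I : Type := {S : Set L // IsClopen S}

lemma isClopen_sigma_iff {S : Set L} (h : ∀ a, IsClopen (Sigma.mk a ⁻¹' S)) : IsClopen S :=
  ⟨isClosed_sigma_iff.2 fun a => (h a).1, isOpen_sigma_iff.2 fun a => (h a).2⟩

def col (a : ℝ) : I := ⟨{z | z.1 = a}, isClopen_sigma_iff fun b =>
  ⟨isClosed_const (p := b = a), isOpen_const (p := b = a)⟩⟩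

open Classical in
noncomputable def P (u : Ultrafilter L) : I → Bool := fun S => decide (S.1 ∈ u)

lemma Pt (u : Ultrafilter L) : Tendsto (fun z => P (pure z)) u (𝓝 (P u)) :=
  tendsto_pi_nhds.2 fun S => tendsto_const_nhds.congr' (by
    rcases u.mem_or_compl_mem S.1 with h | h
    · filter_upwards [h] with z hz
      simp [P, h, hz]
    · filter_upwards [h] with z hz
      simpa [P, Ultrafilter.compl_mem_iff_notMem.1 h] using hz)

def far (u : Ultrafilter L) : Prop := ∀ t, ∃ S : I, S.1 ∈ u ∧ ∀ a, ⟨a, t⟩ ∉ S.1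

abbrev K : Type := {p : I → Bool // ∃ u : Ultrafilter L, ((∃ a, (col a).1 ∈ u) ∨ far u) ∧ p = P u}

noncomputable def r : C(L, K) := ⟨fun z => ⟨P (pure z), _, Or.inl ⟨z.1, rfl⟩, rfl⟩,
  (continuous_pi fun S => (IsLocallyConstant.iff_isOpen_fiber.2 fun b => by
    cases b
    · convert S.2.1.isOpen_compl
      ext z
      simp [P]
    · convert S.2.2
      ext z
      simp [P]).continuous).subtype_mk _⟩

lemma acc (V : ℕ → Set L) (h1 : Antitone V) (h2 : ∀ n, IsOpen (V n))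
    (h3 : ∀ n, (Sigma.fst '' V n).Infinite) :
    ∃ u : Ultrafilter L, far u ∧ (∀ a, (col a).1 ∉ u) ∧ ∀ n, V n ∈ u := by
  classical
  obtain ⟨c, c1, c2⟩ := exists_seq_of_forall_finset_exists (α := ℕ × ℝ)
    (fun p => p.2 ∈ Sigma.fst '' V p.1) (fun p p' => p.1 < p'.1 ∧ p.2 ≠ p'.2) fun s _ => by
      obtain ⟨a, a1, a2⟩ := (h3 (s.sup Prod.fst + 1)).exists_notMem_finset (s.image Prod.snd)
      exact ⟨(_, a), a1, fun p hp => ⟨Nat.lt_succ_of_le (Finset.le_sup (f := Prod.fst) hp),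
        fun e => a2 (Finset.mem_image.2 ⟨p, hp, e⟩)⟩⟩
  have m : StrictMono fun n => (c n).1 := fun a b h => (c2 a b h).1
  have inj : Injective fun n => (c n).2 := Function.Injective.of_lt_imp_ne fun a b h => (c2 a b h).2
  have : ∀ n, ∃ W : Set ℚ, IsClopen W ∧ ∃ x ∈ W, ∀ y ∈ W,
      (⟨(c n).2, y⟩ : L) ∈ V n ∧ n ≤ Encodable.encode y := fun n => by
    obtain ⟨⟨a, x⟩, hx, e⟩ := c1 n
    obtain rfl : a = _ := e
    have hf : {y : ℚ | Encodable.encode y < n}.Finite :=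
      (finite_Iio n).preimage Encodable.encode_injective.injOn
    have o := (h2 n).preimage (continuous_sigmaMk (σ := fun _ : ℝ => ℚ) (i := (c n).2))
    obtain ⟨y, y1, y2⟩ := (infinite_of_mem_nhds x (o.mem_nhds (h1 (m.id_le n) hx))).exists_notMem_finite hf
    obtain ⟨W, w1, w2, w3⟩ := (CompletelyRegularSpace.isTopologicalBasis_clopens_of_cardinalMk_lt_continuum
      (X := ℚ) (by simp [Cardinal.aleph0_lt_continuum])).mem_nhds_iff.1
      ((o.inter hf.isClosed.isOpen_compl).mem_nhds ⟨y1, y2⟩)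
    exact ⟨W, w1, y, w2, fun z hz => ⟨(w3 hz).1, not_lt.1 (w3 hz).2⟩⟩
  choose W w1 x w2 w3 using this
  have k : ∀ s : Set L, (∀ᶠ n in atTop, (⟨(c n).2, x n⟩ : L) ∈ s) →
      s ∈ (hyperfilter ℕ).map fun n => (⟨(c n).2, x n⟩ : L) := fun s hs =>
    Nat.hyperfilter_le_atTop hs
  refine ⟨(hyperfilter ℕ).map fun n => ⟨(c n).2, x n⟩, fun t => ⟨⟨{z | ∃ n, Encodable.encode t < n ∧
    z.1 = (c n).2 ∧ z.2 ∈ W n}, isClopen_sigma_iff fun a => ?_⟩, k _ ((eventually_gt_atTop _).mono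
      fun n hn => ⟨n, hn, rfl, w2 n⟩), fun a ⟨n, e1, _, e2⟩ => e1.not_ge (w3 n t e2).2⟩,
    fun a h => ((finite_singleton a).preimage inj.injOn).notMem_hyperfilter h,
    fun n => k _ ((eventually_ge_atTop n).mono fun j hj => h1 hj (w3 j _ (w2 j)).1)⟩
  by_cases h : ∃ n, Encodable.encode t < n ∧ a = (c n).2
  · obtain ⟨n, e, rfl⟩ := h
    convert w1 n
    exact Set.ext fun y => ⟨fun ⟨j, _, e1, e2⟩ => inj e1 ▸ e2, fun h => ⟨n, e, rfl, h⟩⟩
  · convert isClopen_empty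
    exact eq_empty_of_forall_notMem fun y ⟨j, e, e1, _⟩ => h ⟨j, e, e1⟩

abbrev J : Type := {u : Ultrafilter L // far u ∧ ∀ a, (col a).1 ∉ u}
def Φ (u : J) : Filter L := u.1

lemma rt {u : Ultrafilter L} (h : (∃ a, (col a).1 ∈ u) ∨ far u) :
    Tendsto r u (𝓝 ⟨P u, u, h, rfl⟩) := tendsto_subtype_rng.2 (Pt u)

lemma hr (u : J) : ∃ p, Tendsto r (Φ u) (𝓝 p) := ⟨_, rt (Or.inr u.2.1)⟩

lemma psK (f : C(K, ℝ)) : ∃ M, ∀ k, |f k| ≤ M := by
  by_contra hc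
  let V : ℕ → Set L := fun n => {z | (n : ℝ) < |f (r z)|}
  have h1 : Antitone V := fun a b h z (hz : (b : ℝ) < _) => (Nat.cast_le.2 h).trans_lt hz
  suffices ∃ u : Ultrafilter L, ((∃ a, (col a).1 ∈ u) ∨ far u) ∧ ∀ n, V n ∈ u by
    obtain ⟨u, u1, u2⟩ := this
    refine not_tendsto_nhds_of_tendsto_atTop (tendsto_atTop.2 fun a => ?_) _
      ((f.continuous.tendsto _).comp (rt u1)).abs
    obtain ⟨n, hn⟩ := exists_nat_ge a
    exact mem_of_superset (u2 n) fun z hz => hn.trans (le_of_lt hz)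
  have h0 : ∀ n, (V n).Nonempty := fun n => by
    by_contra h
    refine hc ⟨n, ?_⟩
    rintro ⟨_, u, hu, rfl⟩
    exact le_of_tendsto' ((f.continuous.tendsto _).comp (rt hu)).abs fun z =>
      not_lt.1 fun e => h ⟨z, e⟩
  by_cases h : ∀ n, (Sigma.fst '' V n).Infinite
  · obtain ⟨u, u1, -, u2⟩ := acc V h1 (fun n => isOpen_lt continuous_const (by fun_prop)) h
    exact ⟨u, Or.inr u1, u2⟩
  obtain ⟨n, hn⟩ := not_forall.1 h
  have := iInf_neBot_of_directed (f := fun n => 𝓟 (V n)) (Antitone.directed_ge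
    fun _ _ h => principal_mono.2 (h1 h)) fun n => principal_neBot_iff.2 (h0 n)
  have e : ∀ n, V n ∈ Ultrafilter.of (⨅ n, 𝓟 (V n)) := fun n =>
    Ultrafilter.of_le _ (mem_iInf_of_mem n (mem_principal_self _))
  obtain ⟨a, -, ha⟩ := (Ultrafilter.finite_biUnion_mem_iff (s := fun a => (col a).1)
    (not_infinite.1 hn)).1 (mem_of_superset (e n) fun z hz => mem_iUnion₂.2 ⟨_, ⟨z, hz, rfl⟩, rfl⟩)
  exact ⟨_, Or.inl ⟨a, ha⟩, e⟩

lemma rowt (t : ℚ) : Tendsto (fun a => q Φ ⟨a, t⟩) cofinite (𝓝 0) :=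
  tendsto_pi_nhds.2 fun g => Metric.tendsto_nhds.2 fun ε hε => by
    by_contra hc
    obtain ⟨u, u1, u2, u3⟩ := acc (fun _ => {z | ε / 2 < |g.1 z|}) antitone_const
      (fun _ => isOpen_lt continuous_const (by fun_prop)) fun _ =>
        (frequently_cofinite_iff_infinite.1 (not_eventually.1 hc)).mono fun a ha =>
          ⟨⟨a, t⟩, (half_lt_self hε).trans_le (by simpa [q] using ha), rfl⟩
    have := ge_of_tendsto (x := (u : Filter L)) (g.2 ⟨u, u1, u2⟩).abs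
      (mem_of_superset (u3 0) fun z hz => le_of_lt hz)
    exact (half_pos hε).not_ge (by simpa using this)

lemma psY (k : K) : ∃ S : ℕ → Set (XX Φ (.const L k)), (⋃ n, S n) = univ ∧
    ∀ n, ∀ f : C(S n, ℝ), ∃ M : ℝ, ∀ a, |f a| ≤ M := by
  obtain ⟨e, he⟩ := exists_surjective_nat (Option ℚ)
  let S : Option ℚ → Set (XX Φ (.const L k)) := fun o => o.elim (range (i0 Φ _)) fun t =>
    insert (i0 Φ _ k) (range fun a => i1 Φ _ ⟨a, t⟩)
  suffices ∀ n, ∀ f : C(S n, ℝ), ∃ M : ℝ, ∀ a, |f a| ≤ M from ⟨fun n => S (e n),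
    eq_univ_of_forall fun p => mem_iUnion.2 ?_, fun n => this _⟩
  · rcases cX Φ _ p with ⟨z, rfl⟩ | ⟨z, rfl⟩
    · obtain ⟨n, hn⟩ := he none
      exact ⟨n, by rw [hn]; exact ⟨z, rfl⟩⟩
    · obtain ⟨n, hn⟩ := he (some z.2)
      exact ⟨n, by rw [hn]; exact Or.inr ⟨z.1, rfl⟩⟩
  · rintro (_ | t)
    · intro f
      obtain ⟨M, hM⟩ := psK (f.comp ⟨rangeFactorization _,
        (i0 Φ (.const L k)).continuous.subtype_mk _⟩)
      exact ⟨M, fun ⟨_, z, hz⟩ => hz ▸ hM z⟩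
    · intro f
      have : CompactSpace (S (some t)) := isCompact_iff_compactSpace.1 (Tendsto.isCompact_insert_range_of_cofinite
        (f := fun a => i1 Φ (.const L k) ⟨a, t⟩) (x := i0 Φ _ k)
        (tendsto_subtype_rng.2 (tendsto_const_nhds.prodMk_nhds (rowt t))))
      obtain ⟨M, hM⟩ := (isCompact_range f.continuous.abs).bddAbove
      exact ⟨M, fun a => hM ⟨a, rfl⟩⟩

open Classical in
noncomputable def ez (a : ℝ) (φ : C(ℚ, ℝ)) : G Φ :=
  ⟨⟨fun z => if z.1 = a then φ z.2 else 0, continuous_sigma fun b => by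
    by_cases h : b = a <;> simp [h, φ.continuous, continuous_const]⟩,
    fun u => tendsto_const_nhds.congr' (mem_of_superset (Ultrafilter.compl_mem_iff_notMem.2
      (u.2.2 a)) fun z hz => (if_neg hz).symm)⟩

lemma ezc (g : G Φ) : Continuous fun x : XX Φ r => x.1.2 g := by fun_prop

lemma row (x : XX Φ r) (t : ℚ) : ∃ N ∈ 𝓝 x, ∃ a, ∀ b, i1 Φ r ⟨b, t⟩ ∈ N → b = a := by
  classical
  have o : ∀ S, IsOpen {x : XX Φ r | x.1.1.1 S = true} := fun S =>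
    (isOpen_discrete {true}).preimage (f := fun x : XX Φ r => x.1.1.1 S) ((continuous_apply S).comp (continuous_subtype_val.comp
      (continuous_fst.comp continuous_subtype_val)))
  rcases cX Φ _ x with ⟨⟨_, u, ⟨a, h⟩ | h, rfl⟩, rfl⟩ | ⟨z, rfl⟩
  · exact ⟨_, (o (col a)).mem_nhds (decide_eq_true h), a, fun b hb => of_decide_eq_true hb⟩
  · obtain ⟨S, h1, h2⟩ := h t
    exact ⟨_, (o S).mem_nhds (decide_eq_true h1), 0, fun b hb =>
      (h2 b (of_decide_eq_true hb)).elim⟩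
  · exact ⟨_, (o (col z.1)).mem_nhds (decide_eq_true rfl), z.1, fun b hb => of_decide_eq_true hb⟩

lemma cnt {Z : Set (XX Φ r)} (hZ : ∀ f : C(Z, ℝ), ∃ M : ℝ, ∀ a, |f a| ≤ M) :
    {a | ∃ t, i1 Φ r ⟨a, t⟩ ∈ Z}.Countable := by
  let A : ℚ → Set ℝ := fun t => {a | i1 Φ r ⟨a, t⟩ ∈ Z ∧ ∃ φ : C(ℚ, ℝ), φ t = 1 ∧
    ∀ y, i1 Φ r ⟨a, y⟩ ∈ Z → y ≠ t → φ y = 0}
  refine (countable_iUnion fun t => Finite.countable (s := A t) ?_).mono fun a ⟨t, ht⟩ => ?_
  · by_contra hc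
    let a := Set.Infinite.natEmbedding _ hc
    have inj : Injective fun n => (a n).1 := Subtype.val_injective.comp a.injective
    choose φ h1 h2 using fun n => (a n).2.2
    obtain ⟨M, hM⟩ := hZ ⟨fun x => ∑ᶠ n : ℕ, n * x.1.1.2 (ez (a n) (φ n)), continuous_finsum
      (fun n => continuous_const.mul ((ezc _).comp continuous_subtype_val)) fun x => by
        obtain ⟨N, n1, b, n2⟩ := row x.1 t
        refine ⟨_, continuous_subtype_val.continuousAt.preimage_mem_nhds n1,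
          ((finite_singleton b).preimage inj.injOn).subset fun n ⟨⟨y, hy⟩, e1, e2⟩ => n2 _ ?_⟩
        have e := right_ne_zero_of_mul e1
        rcases cX Φ _ y with ⟨z, rfl⟩ | ⟨⟨c, z⟩, rfl⟩
        · exact (e rfl).elim
        · obtain rfl : c = a n := by_contra fun h => e (if_neg h)
          obtain rfl : z = t := by_contra fun h => e ((if_pos rfl).trans (h2 n z hy h))
          exact e2⟩
    obtain ⟨n, hn⟩ := exists_nat_gt M
    have := hM ⟨_, (a n).2.1⟩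
    simp only [ContinuousMap.coe_mk] at this
    rw [finsum_eq_single _ n fun m hm => mul_eq_zero_of_right _ (if_neg fun h => hm (inj h).symm),
      show (i1 Φ r ⟨a n, t⟩).1.2 (ez (a n) (φ n)) = 1 from (if_pos rfl).trans (h1 n)] at this
    exact hn.not_ge (by simpa using this)
  · by_contra hc
    let Q : Set ℝ := Rat.cast '' {y | i1 Φ r ⟨a, y⟩ ∈ Z}
    have h1 : Preperfect Q := preperfect_iff_nhds.2 (by
      rintro _ ⟨s, hs, rfl⟩ U hU
      by_contra h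
      obtain ⟨ε, e1, e2⟩ := Metric.mem_nhds_iff.1 hU
      refine hc (mem_iUnion.2 ⟨s, hs, ⟨fun y => max 0 (1 - dist (y : ℝ) s / ε), by fun_prop⟩,
        by simp, fun y h1 h2 => max_eq_left (sub_nonpos.2 ((one_le_div e1).2 (not_lt.1 fun h3 =>
          h ⟨y, ⟨e2 h3, y, h1, rfl⟩, Rat.cast_injective.ne h2⟩)))⟩))
    obtain ⟨f, f1, -, f2⟩ := h1.perfect_closure.exists_nat_bool_injection ⟨_, subset_closure
      ⟨t, ht, rfl⟩⟩
    obtain ⟨ξ, h2, h3⟩ : ∃ ξ ∈ closure Q, ξ ∉ range ((↑) : ℚ → ℝ) := by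
      by_contra h
      push Not at h
      have : (f ⁻¹' range ((↑) : ℚ → ℝ)).Countable := (countable_range _).preimage f2
      rw [eq_univ_of_forall fun x => mem_preimage.2 (h _ (f1 (mem_range_self x)))] at this
      have := countable_univ_iff.1 this
      obtain ⟨g, hg⟩ := exists_surjective_nat (ℕ → Bool)
      obtain ⟨n, hn⟩ := hg fun n => !g n n
      simpa using congrFun hn n
    have e : ∀ y : ℚ, (y : ℝ) - ξ ≠ 0 := fun y h => h3 ⟨y, sub_eq_zero.1 h⟩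
    obtain ⟨M, hM⟩ := hZ ⟨fun x => x.1.1.2 (ez a ⟨fun y => ((y : ℝ) - ξ)⁻¹,
      Continuous.inv₀ (by fun_prop) e⟩), (ezc _).comp continuous_subtype_val⟩
    have : (1 : ℝ) ≤ M * |ξ - ξ| := closure_minimal (t := {x | 1 ≤ M * |x - ξ|}) (by
      rintro _ ⟨y, hy, rfl⟩
      have := (congrArg abs (if_pos rfl)).ge.trans (hM ⟨_, hy⟩)
      exact (inv_le_iff_one_le_mul₀ (abs_pos.2 (e y))).1 ((abs_inv _).ge.trans this))
      (isClosed_le continuous_const (by fun_prop)) h2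
    norm_num at this

end Pool.Agent.H.MP_5b75f6
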